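import Pool.Agent.N890.ABG.Main2

/-!
# Shang's character formula for free alternative algebras fails

For every `d` there is exactly one pair of classes `a(V)`, `b(V)`, `dim V = d`, with the two
properties required in Shang's conjecture. For `dim V = 4` the component of degree `9` of `a(V)` has
dimension `261176`, and the component of degree `9` of the free alternative algebra has dimension at
least `4 ^ 9 = 262144`, as the free associative algebra is a quotient. So `[Alt(V)] ≠ a(V)`.
-/

set_option autoImplicit false

open PowerSeries Pool.Agent.N890.ABG

universe u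

/-- For every `d` there is exactly one pair of classes `(a(V), b(V))`, `dim V = d`, with the
properties required in Shang's conjecture. For `dim V = 4`, over every field, the component of
degree `9` of `a(V)` has dimension `261176`, that of `[Alt(V)]` has dimension at least `262144`, and
so `[Alt(V)] ≠ a(V)`. -/
theorem Pool.Agent.Results.MP_9e3efc_al.CharacterFormula.result :
    (∀ d : ℕ, ∃ a b : GrCh (GLWt d), IsShangPair d a b ∧
      ∀ a' b' : GrCh (GLWt d), IsShangPair d a' b' → a' = a ∧ b' = b) ∧
    ∀ (k : Type u) [Field k] (a b : GrCh (GLWt 4)), IsShangPair 4 a b →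
      aug 4 (coeff 9 a) = 261176 ∧ 262144 ≤ aug 4 (coeff 9 (altClass k 4)) ∧
        altClass k 4 ≠ a := by
  refine ⟨fun d => ?_, fun k _ a b h => ⟨dim_nine h, dim_alt_nine k, main k a b h⟩⟩
  obtain ⟨a, b, h⟩ := pair_exists d
  exact ⟨a, b, h, fun a' b' h' => pair_unique h' h⟩
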